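import Pool.Agent.H37.DL.Land
import Pool.Agent.H11.DL6.Hat

/-!
# The law of the data: independence, truncation, hats
-/

open MeasureTheory ProbabilityTheory Filter Topology Set
open Pool.Agent.H37.DL

namespace Pool.Agent.H11.DL6

variable {Ω : Type*} [MeasurableSpace Ω] {P : Measure Ω} [IsProbabilityMeasure P]
  {L : Ω → ℝ → ℝ → ℝ → ℝ → ℝ}

/-- profile from the start at time `t` -/
def D1 (L : Ω → ℝ → ℝ → ℝ → ℝ → ℝ) (t : ℝ) (ω : Ω) (x : ℚ) : ℝ := L ω 0 0 x t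

/-- landscape on `[t, t + 1/2]` -/
def D2 (L : Ω → ℝ → ℝ → ℝ → ℝ → ℝ) (t : ℝ) (ω : Ω) (q : J0) : ℝ :=
  L ω q.1.1 (t + q.1.2.1) q.1.2.2.1 (t + q.1.2.2.2)

/-- profile to the end at time `t + 1/2` -/
noncomputable def D3 (L : Ω → ℝ → ℝ → ℝ → ℝ → ℝ) (t : ℝ) (ω : Ω) (y : ℚ) : ℝ :=
  L ω y (t + 1 / 2) 0 1

/-- the data at time `t` -/
noncomputable def D (L : Ω → ℝ → ℝ → ℝ → ℝ → ℝ) (t : ℝ) (ω : Ω) : E0 :=
  ((D1 L t ω, D2 L t ω), D3 L t ω)

theorem measurable_D1 (hL : IsDirectedLandscape P L) {t : ℝ} (ht0 : 0 < t) :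
    Measurable (D1 L t) :=
  measurable_pi_lambda _ fun x => hL.meas 0 x ht0

theorem J0_lt (q : J0) (t : ℝ) : t + (q.1.2.1 : ℝ) < t + (q.1.2.2.2 : ℝ) := by
  have h : (q.1.2.1 : ℝ) < q.1.2.2.2 := by exact_mod_cast q.2.2.1
  linarith

theorem J0_le (q : J0) (t : ℝ) : t + (q.1.2.2.2 : ℝ) ≤ t + 1 / 2 := by
  have h : (q.1.2.2.2 : ℝ) ≤ ((1 / 2 : ℚ) : ℝ) := by exact_mod_cast q.2.2.2
  push_cast at h
  linarith

theorem J0_nonneg (q : J0) (t : ℝ) : t ≤ t + (q.1.2.1 : ℝ) := by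
  have h : (0 : ℝ) ≤ q.1.2.1 := by exact_mod_cast q.2.1
  linarith

theorem measurable_D2 (hL : IsDirectedLandscape P L) (t : ℝ) : Measurable (D2 L t) :=
  measurable_pi_lambda _ fun q => hL.meas _ _ (J0_lt q t)

theorem measurable_D3 (hL : IsDirectedLandscape P L) {t : ℝ} (ht : t < 1 / 2) :
    Measurable (D3 L t) :=
  measurable_pi_lambda _ fun y => hL.meas _ _ (by linarith)

theorem measurable_D (hL : IsDirectedLandscape P L) {t : ℝ} (ht0 : 0 < t) (ht : t < 1 / 2) :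
    Measurable (D L t) :=
  ((measurable_D1 hL ht0).prodMk (measurable_D2 hL t)).prodMk (measurable_D3 hL ht)

theorem indep_D12_D3 (hL : IsDirectedLandscape P L) {t : ℝ} (ht0 : 0 < t) (ht : t < 1 / 2) :
    IndepFun (fun ω => (D1 L t ω, D2 L t ω)) (D3 L t) P := by
  let φ : (Q4I 0 (t + 1 / 2) → ℝ) → (ℚ → ℝ) × (J0 → ℝ) := fun F =>
    (fun x => F ⟨(0, 0, x, t), le_rfl, ht0, by linarith⟩,
      fun q => F ⟨(q.1.1, t + q.1.2.1, q.1.2.2.1, t + q.1.2.2.2),
        ht0.le.trans (J0_nonneg q t), J0_lt q t, J0_le q t⟩)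
  let ψ : (Q4F (t + 1 / 2) → ℝ) → (ℚ → ℝ) := fun F y =>
    F ⟨(y, t + 1 / 2, 0, 1), le_rfl, by show t + 1 / 2 < 1; linarith⟩
  have hφ : Measurable φ := by
    refine Measurable.prodMk (measurable_pi_lambda _ fun x => measurable_pi_apply _)
      (measurable_pi_lambda _ fun x => measurable_pi_apply _)
  have hψ : Measurable ψ := measurable_pi_lambda _ fun x => measurable_pi_apply _
  exact (hL.indep_past_future 0 (t + 1 / 2)).comp hφ hψ

theorem indep_D1_D2 (hL : IsDirectedLandscape P L) {t : ℝ} (ht0 : 0 < t) :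
    IndepFun (D1 L t) (D2 L t) P := by
  let φ : (Q4I 0 t → ℝ) → (ℚ → ℝ) := fun F x => F ⟨(0, 0, x, t), le_rfl, ht0, le_rfl⟩
  let ψ : (Q4F t → ℝ) → (J0 → ℝ) := fun F q =>
    F ⟨(q.1.1, t + q.1.2.1, q.1.2.2.1, t + q.1.2.2.2), J0_nonneg q t, J0_lt q t⟩
  have hφ : Measurable φ := measurable_pi_lambda _ fun x => measurable_pi_apply _
  have hψ : Measurable ψ := measurable_pi_lambda _ fun x => measurable_pi_apply _
  exact (hL.indep_past_future 0 t).comp hφ hψ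

/-- the law of the data, the profiles being transformed separately -/
theorem map_D (hL : IsDirectedLandscape P L) {t : ℝ} (ht0 : 0 < t) (ht : t < 1 / 2)
    {A1 A3 : (ℚ → ℝ) → (ℚ → ℝ)} (h1 : Measurable A1) (h3 : Measurable A3) :
    P.map (fun ω => ((A1 (D1 L t ω), D2 L t ω), A3 (D3 L t ω))) =
      ((P.map fun ω => A1 (D1 L t ω)).prod (P.map (D2 L t))).prod
        (P.map fun ω => A3 (D3 L t ω)) := by
  have hm1 : Measurable fun ω => A1 (D1 L t ω) := h1.comp (measurable_D1 hL ht0)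
  have hm3 : Measurable fun ω => A3 (D3 L t ω) := h3.comp (measurable_D3 hL ht)
  have hm2 := measurable_D2 hL t
  have hi : IndepFun (fun ω => (A1 (D1 L t ω), D2 L t ω)) (fun ω => A3 (D3 L t ω)) P :=
    (indep_D12_D3 hL ht0 ht).comp (φ := fun p : (ℚ → ℝ) × (J0 → ℝ) => (A1 p.1, p.2)) (ψ := A3)
      ((h1.comp measurable_fst).prodMk measurable_snd) h3
  have hj : IndepFun (fun ω => A1 (D1 L t ω)) (D2 L t) P :=
    (indep_D1_D2 hL ht0).comp (φ := A1) (ψ := id) h1 measurable_id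
  rw [(indepFun_iff_map_prod_eq_prod_map_map (hm1.prodMk hm2).aemeasurable hm3.aemeasurable).1 hi,
    (indepFun_iff_map_prod_eq_prod_map_map hm1.aemeasurable hm2.aemeasurable).1 hj]

/-- the law of the landscape on `[t, t + 1/2]` does not depend on `t` -/
theorem law_D2 (hL : IsDirectedLandscape P L) (t u : ℝ) :
    P.map (D2 L t) = P.map (D2 L u) := by
  have h := (hL.rescale t one_pos).unique (hL.rescale u one_pos)
  let ψ : (Q4 → ℝ) → (J0 → ℝ) := fun F q =>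
    F ⟨(q.1.1, q.1.2.1, q.1.2.2.1, q.1.2.2.2), by
      show (q.1.2.1 : ℝ) < q.1.2.2.2
      exact_mod_cast q.2.2.1⟩
  have hψ : Measurable ψ := measurable_pi_lambda _ fun x => measurable_pi_apply _
  have key : ∀ v : ℝ, P.map (D2 L v) =
      (P.map (fun ω (q : Q4) => ev (resc (L ω) v 1) q)).map ψ := by
    intro v
    rw [Measure.map_map hψ]
    · congr 1
      funext ω q
      simp [D2, ψ, ev, resc]
    · exact measurable_pi_lambda _ fun q => (hL.rescale v one_pos).meas _ _ q.2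
  rw [key t, key u, h]

/-- extension by zero of a function on `[-K, K]` -/
noncomputable def zext (K : ℕ) (h : {x : ℚ // |x| ≤ K} → ℝ) (x : ℚ) : ℝ :=
  if hx : |x| ≤ K then h ⟨x, hx⟩ else 0

theorem measurable_zext (K : ℕ) : Measurable (zext K) := by
  refine measurable_pi_lambda _ fun x => ?_
  unfold zext
  split_ifs
  · exact measurable_pi_apply _
  · exact measurable_const

theorem trunc_D1 (K : ℕ) (t : ℝ) (ω : Ω) : trunc K (D1 L t ω) =
    zext K (fun i => L ω 0 0 ((i.1 : ℚ) : ℝ) t - L ω 0 0 0 t) := by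
  funext x
  simp only [trunc, zext, D1]
  split_ifs <;> simp

theorem trunc_D3 (K : ℕ) (t : ℝ) (ω : Ω) : trunc K (D3 L t ω) =
    zext K (fun i => L ω ((i.1 : ℚ) : ℝ) (t + 1 / 2) 0 1 - L ω 0 (t + 1 / 2) 0 1) := by
  funext x
  simp only [trunc, zext, D3]
  split_ifs <;> simp

theorem ac_D1 (hL : IsDirectedLandscape P L) {t u : ℝ} (ht0 : 0 < t) (hu0 : 0 < u) (K : ℕ) :
    P.map (fun ω => trunc K (D1 L t ω)) ≪ P.map (fun ω => trunc K (D1 L u ω)) := by
  obtain ⟨Ωb, mb, Pb, b, hPb, hb⟩ := exists_isBM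
  have hx : ∀ i : {x : ℚ // |x| ≤ K}, |((i.1 : ℚ) : ℝ)| ≤ (K : ℝ) := by
    intro i
    exact_mod_cast i.2
  have h := (hL.ac_forward hb ht0 (fun i : {x : ℚ // |x| ≤ K} => ((i.1 : ℚ) : ℝ)) K hx).trans
    (hL.ac_forward' hb hu0 (fun i : {x : ℚ // |x| ≤ K} => ((i.1 : ℚ) : ℝ)) K hx)
  have h2 := h.map (measurable_zext K)
  have key : ∀ v : ℝ, 0 < v → P.map (fun ω => trunc K (D1 L v ω)) =
      (P.map (fun ω (i : {x : ℚ // |x| ≤ K}) =>
        L ω 0 0 ((i.1 : ℚ) : ℝ) v - L ω 0 0 0 v)).map (zext K) := by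
    intro v hv
    rw [Measure.map_map (measurable_zext K)]
    · congr 1
      funext ω
      exact trunc_D1 K v ω
    · exact measurable_pi_lambda _ fun q => (hL.meas _ _ hv).sub (hL.meas _ _ hv)
  rw [key t ht0, key u hu0]
  exact h2

theorem ac_D3 (hL : IsDirectedLandscape P L) {t u : ℝ} (ht : t < 1 / 2) (hu : u < 1 / 2) (K : ℕ) :
    P.map (fun ω => trunc K (D3 L t ω)) ≪ P.map (fun ω => trunc K (D3 L u ω)) := by
  obtain ⟨Ωb, mb, Pb, b, hPb, hb⟩ := exists_isBM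
  have hx : ∀ i : {x : ℚ // |x| ≤ K}, |((i.1 : ℚ) : ℝ)| ≤ (K : ℝ) := by
    intro i
    exact_mod_cast i.2
  have ht' : t + 1 / 2 < 1 := by linarith
  have hu' : u + 1 / 2 < 1 := by linarith
  have h := (hL.ac_backward hb ht' (fun i : {x : ℚ // |x| ≤ K} => ((i.1 : ℚ) : ℝ)) K hx).trans
    (hL.ac_backward' hb hu' (fun i : {x : ℚ // |x| ≤ K} => ((i.1 : ℚ) : ℝ)) K hx)
  have h2 := h.map (measurable_zext K)
  have key : ∀ v : ℝ, v + 1 / 2 < 1 → P.map (fun ω => trunc K (D3 L v ω)) =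
      (P.map (fun ω (i : {x : ℚ // |x| ≤ K}) =>
        L ω ((i.1 : ℚ) : ℝ) (v + 1 / 2) 0 1 - L ω 0 (v + 1 / 2) 0 1)).map (zext K) := by
    intro v hv
    rw [Measure.map_map (measurable_zext K)]
    · congr 1
      funext ω
      exact trunc_D3 K v ω
    · exact measurable_pi_lambda _ fun q => (hL.meas _ _ hv).sub (hL.meas _ _ hv)
  rw [key t ht', key u hu']
  exact h2

/-- the truncated data at different times are absolutely continuous -/
theorem ac_truncE (hL : IsDirectedLandscape P L) {t u : ℝ} (ht0 : 0 < t) (ht : t < 1 / 2)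
    (hu0 : 0 < u) (hu : u < 1 / 2) (K : ℕ) :
    P.map (fun ω => truncE K (D L t ω)) ≪ P.map (fun ω => truncE K (D L u ω)) := by
  have h1 := map_D hL ht0 ht (measurable_trunc K) (measurable_trunc K)
  have h2 := map_D hL hu0 hu (measurable_trunc K) (measurable_trunc K)
  have e1 : P.map (fun ω => truncE K (D L t ω)) = _ := h1
  have e2 : P.map (fun ω => truncE K (D L u ω)) = _ := h2
  rw [e1, e2, law_D2 hL t u]
  exact ((ac_D1 hL ht0 hu0 K).prod Measure.AbsolutelyContinuous.rfl).prod (ac_D3 hL ht hu K)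

/-- the data with hats are absolutely continuous with respect to the data -/
theorem ac_hat (hL : IsDirectedLandscape P L) {u : ℝ} (hu0 : 0 < u) (hu : u < 1 / 2)
    {φ : ℝ → ℝ} (hφ : ContDiff ℝ 1 φ) (hφc : HasCompactSupport φ) (hφ0 : ∀ x, 0 ≤ φ x) :
    P.map (fun ω => hat φ (D L u ω)) ≪ P.map (D L u) := by
  have hA : Measurable fun (f : ℚ → ℝ) (x : ℚ) => f x + φ x :=
    measurable_pi_lambda _ fun x => (measurable_pi_apply x).add_const _
  have h1 := map_D hL hu0 hu hA hA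
  have h2 := map_D hL hu0 hu measurable_id measurable_id
  have e1 : P.map (fun ω => hat φ (D L u ω)) = _ := h1
  have e2 : P.map (D L u) = _ := h2
  rw [e1, e2]
  have hu' : u + 1 / 2 < 1 := by linarith
  exact ((hL.hat_forward hu0 hφ hφc hφ0 (fun x : ℚ => (x : ℝ))).prod
    Measure.AbsolutelyContinuous.rfl).prod
      (hL.hat_backward hu' hφ hφc hφ0 (fun x : ℚ => (x : ℝ)))

end Pool.Agent.H11.DL6
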