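import Pool.Agent.H37.DL.Land

/-!
# The geodesic at two and three times is the unique maximiser
-/

open MeasureTheory ProbabilityTheory Filter Topology Set
open Pool.Agent.H37.DL

namespace Pool.Agent.H11.DL6

variable {Ω : Type*} [MeasurableSpace Ω] {P : Measure Ω} [IsProbabilityMeasure P]
  {L : Ω → ℝ → ℝ → ℝ → ℝ → ℝ} {Pi : Ω → C(unitInterval, ℝ)}

theorem comp_le (hL : IsDirectedLandscape P L) {r s t : ℝ} (hrs : r < s) (hst : s < t) :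
    ∀ᵐ ω ∂P, ∀ x z y, L ω x r z s + L ω z s y t ≤ L ω x r y t := by
  filter_upwards [hL.comp r s t hrs hst] with ω h x z y
  exact (h x y).2 ⟨z, rfl⟩

theorem comp_attained (hL : IsDirectedLandscape P L) {r s t : ℝ} (hrs : r < s) (hst : s < t) :
    ∀ᵐ ω ∂P, ∀ x y, ∃ z, L ω x r z s + L ω z s y t = L ω x r y t := by
  filter_upwards [hL.comp r s t hrs hst] with ω h x y
  obtain ⟨z, hz⟩ := (h x y).1
  exact ⟨z, hz⟩

theorem one_time (hL : IsDirectedLandscape P L) (hgeo : ∀ᵐ ω ∂P, IsGeodesic (L ω) (Pi ω))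
    {a : ℝ} (ha0 : 0 < a) (ha : a < 1) :
    ∀ᵐ ω ∂P, ∀ x, L ω 0 0 x a + L ω x a 0 1 = L ω 0 0 0 1 ↔ x = ext (Pi ω) a := by
  filter_upwards [comp_le hL ha0 ha, comp_attained hL ha0 ha, geodesic_unique hL hgeo ha0 ha]
    with ω h1 h2 h3 x
  rw [← h3 x]
  constructor
  · intro h z
    rw [h]
    exact h1 0 z 0
  · intro h
    obtain ⟨z, hz⟩ := h2 0 0
    exact le_antisymm (h1 0 x 0) (hz ▸ h z)

theorem two_time_eq (hL : IsDirectedLandscape P L) (hgeo : ∀ᵐ ω ∂P, IsGeodesic (L ω) (Pi ω))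
    {a b : ℝ} (ha : 0 < a) (hab : a < b) (hb : b < 1) :
    ∀ᵐ ω ∂P, L ω 0 0 (ext (Pi ω) a) a + L ω (ext (Pi ω) a) a (ext (Pi ω) b) b +
      L ω (ext (Pi ω) b) b 0 1 = L ω 0 0 0 1 := by
  filter_upwards [comp_le hL ha (hab.trans hb), comp_le hL hab hb, comp_attained hL (ha.trans hab) hb,
    comp_attained hL ha hab, geodesic_max₂ hL hgeo ha hab hb] with ω h1 h2 h3 h4 h5
  refine le_antisymm ?_ ?_
  · have h6 := h1 0 (ext (Pi ω) a) 0
    have h7 := h2 (ext (Pi ω) a) (ext (Pi ω) b) 0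
    linarith
  · obtain ⟨y, hy⟩ := h3 0 0
    obtain ⟨x, hx⟩ := h4 0 y
    have := h5 x y
    linarith

theorem two_time_lt (hL : IsDirectedLandscape P L) (hgeo : ∀ᵐ ω ∂P, IsGeodesic (L ω) (Pi ω))
    {a b : ℝ} (ha : 0 < a) (hab : a < b) (hb : b < 1) :
    ∀ᵐ ω ∂P, ∀ p : ℝ × ℝ, p ≠ (ext (Pi ω) a, ext (Pi ω) b) →
      L ω 0 0 p.1 a + L ω p.1 a p.2 b + L ω p.2 b 0 1 <
      L ω 0 0 (ext (Pi ω) a) a + L ω (ext (Pi ω) a) a (ext (Pi ω) b) b +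
        L ω (ext (Pi ω) b) b 0 1 := by
  filter_upwards [comp_le hL ha (hab.trans hb), comp_le hL hab hb, comp_le hL (ha.trans hab) hb,
    comp_le hL ha hab, two_time_eq hL hgeo ha hab hb, one_time hL hgeo ha (hab.trans hb),
    one_time hL hgeo (ha.trans hab) hb] with ω h1 h2 h3 h4 h5 h6 h7 p hp
  rw [h5]
  have h8 := h1 0 p.1 0
  have h9 := h2 p.1 p.2 0
  have h10 := h3 0 p.2 0
  have h11 := h4 0 p.1 p.2
  refine lt_of_le_of_ne (by linarith) fun hcon => hp ?_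
  have hx : p.1 = ext (Pi ω) a := (h6 p.1).1 (by linarith)
  have hy : p.2 = ext (Pi ω) b := (h7 p.2).1 (by linarith)
  exact Prod.ext hx hy

theorem three_time_eq (hL : IsDirectedLandscape P L) (hgeo : ∀ᵐ ω ∂P, IsGeodesic (L ω) (Pi ω))
    {a b c : ℝ} (ha : 0 < a) (hab : a < b) (hbc : b < c) (hc : c < 1) :
    ∀ᵐ ω ∂P, L ω 0 0 (ext (Pi ω) a) a + L ω (ext (Pi ω) a) a (ext (Pi ω) b) b +
      L ω (ext (Pi ω) b) b (ext (Pi ω) c) c + L ω (ext (Pi ω) c) c 0 1 = L ω 0 0 0 1 := by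
  filter_upwards [two_time_eq hL hgeo ha hab (hbc.trans hc),
    two_time_eq hL hgeo (ha.trans hab) hbc hc,
    one_time hL hgeo (ha.trans hab) (hbc.trans hc)] with ω h1 h2 h3
  have h4 := (h3 (ext (Pi ω) b)).2 rfl
  linarith

theorem three_time_lt (hL : IsDirectedLandscape P L) (hgeo : ∀ᵐ ω ∂P, IsGeodesic (L ω) (Pi ω))
    {a b c : ℝ} (ha : 0 < a) (hab : a < b) (hbc : b < c) (hc : c < 1) :
    ∀ᵐ ω ∂P, ∀ p : ℝ × ℝ × ℝ, p ≠ (ext (Pi ω) a, ext (Pi ω) b, ext (Pi ω) c) →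
      L ω 0 0 p.1 a + L ω p.1 a p.2.1 b + L ω p.2.1 b p.2.2 c + L ω p.2.2 c 0 1 <
      L ω 0 0 (ext (Pi ω) a) a + L ω (ext (Pi ω) a) a (ext (Pi ω) b) b +
        L ω (ext (Pi ω) b) b (ext (Pi ω) c) c + L ω (ext (Pi ω) c) c 0 1 := by
  filter_upwards [comp_le hL ha (hab.trans (hbc.trans hc)), comp_le hL (ha.trans hab) (hbc.trans hc),
    comp_le hL (ha.trans (hab.trans hbc)) hc, comp_le hL ha hab, comp_le hL hab (hbc.trans hc),
    comp_le hL (ha.trans hab) hbc, comp_le hL hbc hc,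
    three_time_eq hL hgeo ha hab hbc hc,
    one_time hL hgeo ha (hab.trans (hbc.trans hc)), one_time hL hgeo (ha.trans hab) (hbc.trans hc),
    one_time hL hgeo (ha.trans (hab.trans hbc)) hc]
    with ω h1 h2 h3 h4 h5 h6 h7 heq ha1 hb1 hc1 p hp
  rw [heq]
  have e1 := h1 0 p.1 0
  have e2 := h2 0 p.2.1 0
  have e3 := h3 0 p.2.2 0
  have e4 := h4 0 p.1 p.2.1
  have e5 := h5 p.1 p.2.1 0
  have e6 := h6 0 p.2.1 p.2.2
  have e7 := h7 p.2.1 p.2.2 0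
  refine lt_of_le_of_ne (by linarith) fun hcon => hp ?_
  have hx : p.1 = ext (Pi ω) a := (ha1 p.1).1 (by linarith)
  have hz : p.2.1 = ext (Pi ω) b := (hb1 p.2.1).1 (by linarith)
  have hy : p.2.2 = ext (Pi ω) c := (hc1 p.2.2).1 (by linarith)
  exact Prod.ext hx (Prod.ext hz hy)

end Pool.Agent.H11.DL6
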