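import Pool.Agent.H11.DL6.Geo
import Pool.Agent.H11.DL6.Data

/-!
# Almost sure properties of the data
-/

open MeasureTheory ProbabilityTheory Filter Topology Set
open Pool.Agent.H37.DL

namespace Pool.Agent.H11.DL6

variable {Ω : Type*} [MeasurableSpace Ω] {P : Measure Ω} [IsProbabilityMeasure P]
  {L : Ω → ℝ → ℝ → ℝ → ℝ → ℝ} {Pi : Ω → C(unitInterval, ℝ)}

/-- total weight through `p` at times `a`, `b`, `c` -/
def W3 (L : Ω → ℝ → ℝ → ℝ → ℝ → ℝ) (a b c : ℝ) (ω : Ω) (p : ℝ × ℝ × ℝ) : ℝ :=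
  L ω 0 0 p.1 a + L ω p.1 a p.2.1 b + L ω p.2.1 b p.2.2 c + L ω p.2.2 c 0 1

/-- total weight through `p` at times `a`, `b` -/
def W2 (L : Ω → ℝ → ℝ → ℝ → ℝ → ℝ) (a b : ℝ) (ω : Ω) (p : ℝ × ℝ) : ℝ :=
  L ω 0 0 p.1 a + L ω p.1 a p.2 b + L ω p.2 b 0 1

theorem continuous_L (hL : IsDirectedLandscape P L) (ω : Ω) {α : Type*} [TopologicalSpace α]
    {s t : ℝ} (hst : s < t) {f g : α → ℝ} (hf : Continuous f) (hg : Continuous g) :
    Continuous fun a => L ω (f a) s (g a) t := by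
  have h : Continuous fun a => ((f a, s, g a, t) : ℝ × ℝ × ℝ × ℝ) := by fun_prop
  rw [← continuousOn_univ] at h ⊢
  exact (hL.cont ω).comp h fun a _ => hst

theorem continuous_W3 (hL : IsDirectedLandscape P L) {a b c : ℝ} (ha : 0 < a) (hab : a < b)
    (hbc : b < c) (hc : c < 1) (ω : Ω) : Continuous (W3 L a b c ω) := by
  unfold W3
  exact (((continuous_L hL ω ha continuous_const continuous_fst).add
    (continuous_L hL ω hab continuous_fst (by fun_prop))).add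
    (continuous_L hL ω hbc (by fun_prop) (by fun_prop))).add
    (continuous_L hL ω hc (by fun_prop) continuous_const)

theorem continuous_W2 (hL : IsDirectedLandscape P L) {a b : ℝ} (ha : 0 < a) (hab : a < b)
    (hb : b < 1) (ω : Ω) : Continuous (W2 L a b ω) := by
  unfold W2
  exact ((continuous_L hL ω ha continuous_const continuous_fst).add
    (continuous_L hL ω hab continuous_fst (by fun_prop))).add
    (continuous_L hL ω hb (by fun_prop) continuous_const)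

theorem M3_D (t : ℝ) (ω : Ω) (s : T0) (q : ℚ × ℚ × ℚ) :
    M3 s (D L t ω) q = W3 L t (t + (s.1 : ℝ)) (t + 1 / 2) ω (cst q) := by
  simp [M3, D, D1, D2, D3, W3, lo, up, cst]

theorem M2_D (t : ℝ) (ω : Ω) (x y : ℚ) :
    M2 (D L t ω) x y = W2 L t (t + 1 / 2) ω ((x : ℝ), (y : ℝ)) := by
  simp [M2, D, D1, D2, D3, W2, wh]

theorem T0_pos (s : T0) : (0 : ℝ) < (s.1 : ℝ) := by exact_mod_cast s.2.1

theorem T0_lt (s : T0) : (s.1 : ℝ) < 1 / 2 := by
  have h : (s.1 : ℝ) < ((1 / 2 : ℚ) : ℝ) := by exact_mod_cast s.2.2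
  push_cast at h
  exact h

/-- the increments of the geodesic at rational times -/
noncomputable def incr (Pi : Ω → C(unitInterval, ℝ)) (t : ℝ) (ω : Ω) (s : T0) : ℝ :=
  ext (Pi ω) (t + (s.1 : ℝ)) - ext (Pi ω) t

theorem Psi_D_id (hL : IsDirectedLandscape P L) (hgeo : ∀ᵐ ω ∂P, IsGeodesic (L ω) (Pi ω))
    {t : ℝ} (ht0 : 0 < t) (ht : t < 1 / 2) :
    ∀ᵐ ω ∂P, Psi id (D L t ω) = incr Pi t ω := by
  have h : ∀ s : T0, ∀ᵐ ω ∂P, Psi id (D L t ω) s = incr Pi t ω s := by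
    intro s
    have hs0 := T0_pos s
    have hs := T0_lt s
    filter_upwards [three_time_lt hL hgeo ht0 (lt_add_of_pos_right t hs0)
      (show t + (s.1 : ℝ) < t + 1 / 2 by linarith) (by linarith)] with ω hω
    obtain ⟨n₀, hn₀⟩ := exists_nat_ge (max |ext (Pi ω) t| (max |ext (Pi ω) (t + (s.1 : ℝ))|
      |ext (Pi ω) (t + 1 / 2)|))
    have hc := continuous_W3 hL ht0 (lt_add_of_pos_right t hs0)
      (show t + (s.1 : ℝ) < t + 1 / 2 by linarith) (by linarith) ω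
    have key := PsiE_eq (κ := id) (n₀ := n₀) hc (p := (ext (Pi ω) t, ext (Pi ω) (t + (s.1 : ℝ)),
      ext (Pi ω) (t + 1 / 2))) hω (fun n hn => by
        have hn' : (n₀ : ℝ) ≤ n := by exact_mod_cast hn
        have h1 := hn₀.trans hn'
        rw [max_le_iff, max_le_iff] at h1
        exact h1) (M3_D (L := L) t ω s)
    unfold Psi
    rw [key, EReal.toReal_coe]
    rfl
  filter_upwards [ae_all_iff.2 h] with ω hω
  exact funext hω

theorem Psi_D_K (hL : IsDirectedLandscape P L) (hgeo : ∀ᵐ ω ∂P, IsGeodesic (L ω) (Pi ω))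
    {t : ℝ} (ht0 : 0 < t) (ht : t < 1 / 2) :
    ∀ᵐ ω ∂P, ∃ K : ℕ, D L t ω ∈ G K ∧ Psi (fun _ => K) (D L t ω) = incr Pi t ω := by
  have h : ∀ s : T0, ∀ᵐ ω ∂P, ∀ K : ℕ, |ext (Pi ω) t| < K → |ext (Pi ω) (t + 1 / 2)| < K →
      Psi (fun _ => K) (D L t ω) s = incr Pi t ω s := by
    intro s
    have hs0 := T0_pos s
    have hs := T0_lt s
    filter_upwards [three_time_lt hL hgeo ht0 (lt_add_of_pos_right t hs0)
      (show t + (s.1 : ℝ) < t + 1 / 2 by linarith) (by linarith)] with ω hω K hK1 hK2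
    obtain ⟨n₀, hn₀⟩ := exists_nat_ge |ext (Pi ω) (t + (s.1 : ℝ))|
    have hc := continuous_W3 hL ht0 (lt_add_of_pos_right t hs0)
      (show t + (s.1 : ℝ) < t + 1 / 2 by linarith) (by linarith) ω
    have key := PsiE_eq (κ := fun _ => K) (n₀ := n₀) hc (p := (ext (Pi ω) t,
      ext (Pi ω) (t + (s.1 : ℝ)), ext (Pi ω) (t + 1 / 2))) hω (fun n hn => by
        have hn' : (n₀ : ℝ) ≤ n := by exact_mod_cast hn
        exact ⟨hK1.le, hn₀.trans hn', hK2.le⟩) (M3_D (L := L) t ω s)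
    unfold Psi
    rw [key, EReal.toReal_coe]
    rfl
  filter_upwards [ae_all_iff.2 h, two_time_lt hL hgeo ht0 (show t < t + 1 / 2 by linarith)
    (by linarith)] with ω hω hω2
  obtain ⟨K, hK⟩ := exists_nat_gt (max |ext (Pi ω) t| |ext (Pi ω) (t + 1 / 2)|)
  rw [max_lt_iff] at hK
  refine ⟨K, ?_, funext fun s => hω s K hK.1 hK.2⟩
  exact mem_G (continuous_W2 hL ht0 (show t < t + 1 / 2 by linarith) (by linarith) ω)
    (M2_D (L := L) t ω) (p := (ext (Pi ω) t, ext (Pi ω) (t + 1 / 2))) hω2 hK.1 hK.2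

/-- the hats argument -/
theorem exists_hat_D (hL : IsDirectedLandscape P L) {t : ℝ} (ht0 : 0 < t) (ht : t < 1 / 2) :
    ∀ᵐ ω ∂P, ∀ K : ℕ, D L t ω ∈ G K →
      ∃ r j : ℕ, Psi id (hat (hatFun K r j) (D L t ω)) = Psi (fun _ => K) (D L t ω) := by
  have ht1 : t < t + 1 / 2 := by linarith
  have ht2 : t + 1 / 2 < 1 := by linarith
  have h32 : ∀ s : T0, ∀ᵐ ω ∂P, ∀ x z y : ℝ, L ω x t z (t + (s.1 : ℝ)) +
      L ω z (t + (s.1 : ℝ)) y (t + 1 / 2) ≤ L ω x t y (t + 1 / 2) := fun s =>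
    comp_le hL (lt_add_of_pos_right t (T0_pos s)) (by linarith [T0_lt s])
  have h23 : ∀ s : T0, ∀ᵐ ω ∂P, ∀ x y : ℝ, ∃ z, L ω x t z (t + (s.1 : ℝ)) +
      L ω z (t + (s.1 : ℝ)) y (t + 1 / 2) = L ω x t y (t + 1 / 2) := fun s =>
    comp_attained hL (lt_add_of_pos_right t (T0_pos s)) (by linarith [T0_lt s])
  filter_upwards [ae_all_iff.2 h32, ae_all_iff.2 h23, comp_le hL ht0 (ht1.trans ht2),
    comp_le hL ht1 ht2] with ω hle hatt h1 h2 K hG
  refine exists_hat hG (continuous_W2 hL ht0 ht1 ht2 ω) (M2_D (L := L) t ω)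
    (B := L ω 0 0 0 1) ?_ ?_ ?_
  · intro x y
    rw [M2_D]
    have h3 := h1 0 x 0
    have h4 := h2 x y 0
    simp only [W2]
    linarith
  · intro s q
    rw [M3_D, M2_D]
    have h3 := hle s q.1 q.2.1 q.2.2
    simp only [W3, W2, cst]
    linarith
  · intro s x y ε hε
    obtain ⟨z, hz⟩ := hatt s x y
    have hs0 := T0_pos s
    have hs := T0_lt s
    have hc : Continuous fun z' : ℝ => W3 L t (t + (s.1 : ℝ)) (t + 1 / 2) ω
        ((x : ℝ), z', (y : ℝ)) :=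
      (continuous_W3 hL ht0 (lt_add_of_pos_right t hs0)
        (show t + (s.1 : ℝ) < t + 1 / 2 by linarith) ht2 ω).comp (by fun_prop)
    have hopen : IsOpen {z' : ℝ | M2 (D L t ω) x y - ε < W3 L t (t + (s.1 : ℝ)) (t + 1 / 2) ω
        ((x : ℝ), z', (y : ℝ))} := isOpen_lt continuous_const hc
    have hne : {z' : ℝ | M2 (D L t ω) x y - ε < W3 L t (t + (s.1 : ℝ)) (t + 1 / 2) ω
        ((x : ℝ), z', (y : ℝ))}.Nonempty := by
      refine ⟨z, ?_⟩
      simp only [mem_ofPred_eq]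
      rw [M2_D]
      simp only [W3, W2]
      linarith
    obtain ⟨z', hz'⟩ := Rat.denseRange_cast (𝕜 := ℝ) |>.exists_mem_open hopen hne
    refine ⟨z', ?_⟩
    rw [M3_D]
    exact hz'

end Pool.Agent.H11.DL6
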