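import Pool.Agent.H11.DL6.Good

/-!
# Part I: the increments of the geodesic at different times are absolutely continuous
-/

open MeasureTheory ProbabilityTheory Filter Topology Set
open Pool.Agent.H37.DL

namespace Pool.Agent.H11.DL6

variable {Ω : Type*} [MeasurableSpace Ω] {P : Measure Ω} [IsProbabilityMeasure P]
  {L : Ω → ℝ → ℝ → ℝ → ℝ → ℝ} {Pi : Ω → C(unitInterval, ℝ)}

theorem measurable_ext_eval (hPi : Measurable Pi) (r : ℝ) :
    Measurable fun ω => ext (Pi ω) r := by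
  unfold H37.DL.ext
  exact (continuous_eval_const (F := C(unitInterval, ℝ)) _).measurable.comp hPi

theorem measurable_incr (hPi : Measurable Pi) (t : ℝ) : Measurable (incr Pi t) :=
  measurable_pi_lambda _ fun _ =>
    (measurable_ext_eval hPi _).sub (measurable_ext_eval hPi _)

theorem measurable_hat (φ : ℝ → ℝ) : Measurable (hat φ) := by
  unfold hat
  refine ((measurable_pi_lambda _ fun x => ?_).prodMk (by fun_prop)).prodMk
    (measurable_pi_lambda _ fun x => ?_)
  · fun_prop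
  · fun_prop

theorem measurable_truncE (K : ℕ) : Measurable (truncE K) := by
  unfold truncE
  exact (((measurable_trunc K).comp (by fun_prop)).prodMk (by fun_prop)).prodMk
    ((measurable_trunc K).comp (by fun_prop))

/-- hats of the data do not give paths in a null set -/
theorem null_hat (hL : IsDirectedLandscape P L) (hgeo : ∀ᵐ ω ∂P, IsGeodesic (L ω) (Pi ω))
    {u : ℝ} (hu0 : 0 < u) (hu : u < 1 / 2) {B : Set (T0 → ℝ)} (hB : MeasurableSet B)
    (h0 : ∀ᵐ ω ∂P, incr Pi u ω ∉ B) :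
    ∀ᵐ ω ∂P, ∀ K r j : ℕ, Psi id (hat (hatFun K r j) (D L u ω)) ∉ B := by
  rw [ae_all_iff]
  intro K
  rw [ae_all_iff]
  intro r
  rw [ae_all_iff]
  intro j
  have hm := measurable_D hL hu0 hu
  have hS : MeasurableSet {e : E0 | Psi id e ∉ B} := (measurable_Psi id hB).compl
  have h1 : ∀ᵐ ω ∂P, Psi id (D L u ω) ∉ B := by
    filter_upwards [h0, Psi_D_id hL hgeo hu0 hu] with ω h2 h3
    rw [h3]
    exact h2
  have h2 : ∀ᵐ e ∂(P.map (D L u)), Psi id e ∉ B := (ae_map_iff hm.aemeasurable hS).2 h1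
  have h3 : ∀ᵐ e ∂(P.map fun ω => hat (hatFun K r j) (D L u ω)), Psi id e ∉ B :=
    (ac_hat hL hu0 hu (contDiff_hatFun K r j) (hasCompactSupport_hatFun K r j)
      (hatFun_nonneg K r j)).ae_le h2
  exact (ae_map_iff ((measurable_hat _).comp hm).aemeasurable hS).1 h3

theorem null_box (hL : IsDirectedLandscape P L) (hgeo : ∀ᵐ ω ∂P, IsGeodesic (L ω) (Pi ω))
    {u : ℝ} (hu0 : 0 < u) (hu : u < 1 / 2) {B : Set (T0 → ℝ)} (hB : MeasurableSet B)
    (h0 : ∀ᵐ ω ∂P, incr Pi u ω ∉ B) (K : ℕ) :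
    ∀ᵐ ω ∂P, D L u ω ∈ G K → Psi (fun _ => K) (D L u ω) ∉ B := by
  filter_upwards [null_hat hL hgeo hu0 hu hB h0, exists_hat_D hL hu0 hu] with ω h1 h2 h3
  obtain ⟨r, j, h4⟩ := h2 K h3
  rw [← h4]
  exact h1 K r j

theorem null_transfer (hL : IsDirectedLandscape P L) (hgeo : ∀ᵐ ω ∂P, IsGeodesic (L ω) (Pi ω))
    {t u : ℝ} (ht0 : 0 < t) (ht : t < 1 / 2) (hu0 : 0 < u) (hu : u < 1 / 2)
    {B : Set (T0 → ℝ)} (hB : MeasurableSet B) (h0 : ∀ᵐ ω ∂P, incr Pi u ω ∉ B) :
    ∀ᵐ ω ∂P, incr Pi t ω ∉ B := by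
  have key : ∀ K : ℕ, ∀ᵐ ω ∂P, D L t ω ∈ G K → Psi (fun _ => K) (D L t ω) ∉ B := by
    intro K
    have hS : MeasurableSet {e : E0 | e ∈ G K → Psi (fun _ => K) e ∉ B} := by
      have : {e : E0 | e ∈ G K → Psi (fun _ => K) e ∉ B} =
          (G K)ᶜ ∪ {e : E0 | Psi (fun _ => K) e ∉ B} := by
        ext e
        simp only [mem_ofPred_eq, mem_union, mem_compl_iff]
        tauto
      rw [this]
      exact (measurableSet_G K).compl.union (measurable_Psi _ hB).compl
    have hmu := (measurable_truncE K).comp (measurable_D hL hu0 hu)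
    have hmt := (measurable_truncE K).comp (measurable_D hL ht0 ht)
    have h1 : ∀ᵐ e ∂(P.map fun ω => truncE K (D L u ω)), e ∈ G K → Psi (fun _ => K) e ∉ B := by
      refine (ae_map_iff hmu.aemeasurable hS).2 ?_
      filter_upwards [null_box hL hgeo hu0 hu hB h0 K] with ω h2
      simp only [Function.comp_apply]
      rw [truncE_mem_G, Psi_truncE]
      exact h2
    have h2 : ∀ᵐ e ∂(P.map fun ω => truncE K (D L t ω)), e ∈ G K → Psi (fun _ => K) e ∉ B :=
      (ac_truncE hL ht0 ht hu0 hu K).ae_le h1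
    have h3 := (ae_map_iff hmt.aemeasurable hS).1 h2
    filter_upwards [h3] with ω h4
    simp only [Function.comp_apply] at h4
    rw [truncE_mem_G, Psi_truncE] at h4
    exact h4
  filter_upwards [ae_all_iff.2 key, Psi_D_K hL hgeo ht0 ht] with ω h1 h2
  obtain ⟨K, h3, h4⟩ := h2
  rw [← h4]
  exact h1 K h3

/-- restriction of a path to the rational times -/
def rho (η : C(Set.Icc (0 : ℝ) (1 / 2), ℝ)) (s : T0) : ℝ :=
  η ⟨(s.1 : ℝ), (T0_pos s).le, (T0_lt s).le⟩

theorem measurable_rho : Measurable rho :=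
  measurable_pi_lambda _ fun _ =>
    (continuous_eval_const (F := C(Set.Icc (0 : ℝ) (1 / 2), ℝ)) _).measurable

theorem rho_injective : Function.Injective rho := by
  intro η η' h
  have hd : Dense (range fun s : T0 =>
      (⟨(s.1 : ℝ), (T0_pos s).le, (T0_lt s).le⟩ : Set.Icc (0 : ℝ) (1 / 2))) := by
    rw [dense_iff_inter_open]
    rintro U hU ⟨a, ha⟩
    obtain ⟨ε, hε, hball⟩ := Metric.isOpen_iff.1 hU a ha
    have ha1 := a.2.1
    have ha2 := a.2.2
    have hlt : max 0 ((a : ℝ) - ε) < min (1 / 2) ((a : ℝ) + ε) := by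
      rw [max_lt_iff, lt_min_iff, lt_min_iff]
      refine ⟨⟨by norm_num, by linarith⟩, by linarith, by linarith⟩
    obtain ⟨r, hr1, hr2⟩ := exists_rat_btwn hlt
    rw [max_lt_iff] at hr1
    rw [lt_min_iff] at hr2
    have hr0 : 0 < r := by exact_mod_cast hr1.1
    have hrh : r < 1 / 2 := by
      have : (r : ℝ) < ((1 / 2 : ℚ) : ℝ) := by
        push_cast
        exact hr2.1
      exact_mod_cast this
    refine ⟨⟨(r : ℝ), hr1.1.le, hr2.1.le⟩, hball ?_, ⟨⟨r, hr0, hrh⟩, rfl⟩⟩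
    rw [Metric.mem_ball, Subtype.dist_eq, Real.dist_eq, abs_lt]
    constructor
    · linarith [hr1.2]
    · linarith [hr2.2]
  refine ContinuousMap.ext fun a => ?_
  have := Continuous.ext_on hd η.continuous η'.continuous (by
    rintro _ ⟨s, rfl⟩
    exact congrFun h s)
  exact congrFun this a

theorem measurableEmbedding_rho : MeasurableEmbedding rho :=
  measurable_rho.measurableEmbedding rho_injective

theorem rho_eta (π : C(unitInterval, ℝ)) (t : ℝ) (s : T0) :
    rho (eta π t) s = ext π (t + (s.1 : ℝ)) - ext π t := rfl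

theorem measurable_eta (hPi : Measurable Pi) (t : ℝ) : Measurable fun ω => eta (Pi ω) t := by
  rw [← measurableEmbedding_rho.measurable_comp_iff]
  exact measurable_incr hPi t

/-- Part I -/
theorem partI' (hL : IsDirectedLandscape P L) (hPi : Measurable Pi)
    (hgeo : ∀ᵐ ω ∂P, IsGeodesic (L ω) (Pi ω)) {t u : ℝ} (ht0 : 0 < t) (ht : t < 1 / 2)
    (hu0 : 0 < u) (hu : u < 1 / 2) :
    P.map (fun ω => eta (Pi ω) t) ≪ P.map (fun ω => eta (Pi ω) u) := by
  refine Measure.AbsolutelyContinuous.mk fun A hA h0 => ?_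
  have hmt := measurable_eta hPi t
  have hmu := measurable_eta hPi u
  have hB : MeasurableSet (rho '' A) := measurableEmbedding_rho.measurableSet_image.2 hA
  have hiff : ∀ (v : ℝ) (ω : Ω), eta (Pi ω) v ∈ A ↔ incr Pi v ω ∈ rho '' A := by
    intro v ω
    have : incr Pi v ω = rho (eta (Pi ω) v) := rfl
    rw [this, rho_injective.mem_set_image]
  rw [Measure.map_apply hmu hA, measure_eq_zero_iff_ae_notMem] at h0
  rw [Measure.map_apply hmt hA, measure_eq_zero_iff_ae_notMem]
  have h1 : ∀ᵐ ω ∂P, incr Pi u ω ∉ rho '' A := by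
    filter_upwards [h0] with ω h2
    rw [← hiff]
    exact h2
  filter_upwards [null_transfer hL hgeo ht0 ht hu0 hu hB h1] with ω h2
  rw [mem_preimage, hiff]
  exact h2

end Pool.Agent.H11.DL6
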